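import Pool.Agent.helper69.FlexPoly.Torus

set_option autoImplicit false

open MeasureTheory Filter Topology

namespace Pool.Agent.Results.MP_cf0a62_gt.RobustNondegenerate

open Pool.Agent.helper69.FlexPoly

/-- There are a flexible polyhedron `P₀` in `S^3` and a closed curve `γ` in its configuration space,
starting and ending at `P₀`, such that no two vertices of `γ t` are equal or antipodal, for all
times `t`, and such that for every set `A` of vertices, after the vertices in `A` are replaced by
their antipodes, the polyhedron is flexible, the increment of the oriented volume along the curve is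
not zero, and so the oriented volume has no single-valued real-valued branch. -/
theorem result : ∃ (V : Type) (K : OrientedPseudomanifold V 3) (P₀ : V → Fin 4 → ℝ)
    (γ : unitInterval → V → Fin 4 → ℝ),
    Continuous γ ∧ γ 0 = P₀ ∧ γ 1 = P₀ ∧ (∀ t, γ t ∈ Conf K P₀) ∧
    (∀ t v w, v ≠ w → γ t v ≠ γ t w ∧ γ t v ≠ - γ t w) ∧
    ∀ A : Set V, Flexible K (antipodes A P₀) ∧
      (∃ k : ℤ, k ≠ 0 ∧ IncrementAlong K (fun t => antipodes A (γ t)) k) ∧
      ¬ HasRealBranch K (antipodes A P₀) := by
  obtain ⟨P₀, γ, h⟩ := glue core_torus
  exact ⟨_, _, P₀, γ, h⟩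

end Pool.Agent.Results.MP_cf0a62_gt.RobustNondegenerate
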