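import Pool.Agent.helper69.FlexPoly.Loop

set_option autoImplicit false

open MeasureTheory

namespace Pool.Agent.Results.MP_cf0a62_gt.RobustNonzeroIncrement

open Pool.Agent.helper69.FlexPoly

/-- `P` is embedded, i.e. injective as a map `K → S^n`: two nonnegative combinations of the vertex
vectors of simplices of `K` agree only if they have the same coefficients (a function on the set of
vertices supported on a simplex). -/
def Embedded {V : Type} {n : ℕ} (K : OrientedPseudomanifold V n)
    (P : V → Fin (n + 1) → ℝ) : Prop :=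
  ∀ F ∈ K.facets, ∀ G ∈ K.facets, ∀ c d : V → ℝ, (∀ v, 0 ≤ c v) → (∀ v, 0 ≤ d v) →
    (∀ v, v ∉ Set.range F → c v = 0) → (∀ v, v ∉ Set.range G → d v = 0) →
    ∑ i, c (F i) • P (F i) = ∑ i, d (G i) • P (G i) → c = d

/-- `γ` is a closed curve from `P₀` to `P₀` in the configuration space of `P₀`, and the increment
of the oriented volume along `γ` is `vol(S^n)` or `-vol(S^n)`. -/
def UnitIncrement {V : Type} {n : ℕ} (K : OrientedPseudomanifold V n)
    (P₀ : V → Fin (n + 1) → ℝ) (γ : unitInterval → V → Fin (n + 1) → ℝ) : Prop :=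
  Continuous γ ∧ γ 0 = P₀ ∧ γ 1 = P₀ ∧ (∀ t, γ t ∈ Conf K P₀) ∧
    ∃ k : ℤ, (k = 1 ∨ k = -1) ∧ IncrementAlong K γ k

/-- two points of the same or of opposite half-lines -/
lemma pair_eq {x : Bool → ℝ} {y : Bool → ℝ} {b b' : Bool}
    (hxb : ∀ a, a ≠ b → x a = 0) (hyb : ∀ a, a ≠ b' → y a = 0)
    (h1 : b = b' → x b = y b) (h2 : b ≠ b' → x b = 0 ∧ y b' = 0) : x = y := by
  funext a
  by_cases hb : b = b'
  · subst hb
    by_cases ha : a = b
    · subst ha; exact h1 rfl
    · rw [hxb a ha, hyb a ha]
  · obtain ⟨h3, h4⟩ := h2 hb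
    have h5 : x a = 0 := by
      by_cases ha : a = b
      · rw [ha]; exact h3
      · exact hxb a ha
    have h6 : y a = 0 := by
      by_cases ha : a = b'
      · rw [ha]; exact h4
      · exact hyb a ha
    rw [h5, h6]

lemma embedded_base (m : ℕ) : Embedded (crossPolytope (m + 1)) (base m 0) := by
  intro F hF G hG c d hc hd hcF hdG h
  obtain ⟨s, rfl⟩ := mem_facets hF
  obtain ⟨s', rfl⟩ := mem_facets hG
  have hcs : ∀ i a, a ≠ s i → c (i, a) = 0 := by
    intro i a ha
    apply hcF
    rw [mem_range_facet]
    exact ha.symm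
  have hds : ∀ i a, a ≠ s' i → d (i, a) = 0 := by
    intro i a ha
    apply hdG
    rw [mem_range_facet]
    exact ha.symm
  have hcast : ∀ k : Fin m, c (k.castSucc, s k.castSucc) * rs (s k.castSucc) =
      d (k.castSucc, s' k.castSucc) * rs (s' k.castSucc) := by
    intro k
    have h1 := congrFun h k.castSucc.castSucc
    have h2 := sum_facet_apply_cast (m := m) (c := st fun _ => true)
      (φ := fun b => if b then Real.pi / 2 + 0 else 0) s (fun i => c (i, s i)) k
    have h3 := sum_facet_apply_cast (m := m) (c := st fun _ => true)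
      (φ := fun b => if b then Real.pi / 2 + 0 else 0) s' (fun i => d (i, s' i)) k
    have h4 := (h2.symm.trans h1).trans h3
    have h5 : ∀ b : Bool, st (fun _ => true) k.castSucc b = rs b := by
      intro b; cases b <;> simp [st, rs]
    rw [h5, h5] at h4
    exact h4
  have hia : c (Fin.last m, s (Fin.last m)) *
        Real.cos (if s (Fin.last m) then Real.pi / 2 + 0 else 0) =
      d (Fin.last m, s' (Fin.last m)) *
        Real.cos (if s' (Fin.last m) then Real.pi / 2 + 0 else 0) := by
    have h1 := congrFun h (ia m)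
    have h2 := sum_facet_apply_ia (m := m) (c := st fun _ => true)
      (φ := fun b => if b then Real.pi / 2 + 0 else 0) s (fun i => c (i, s i))
    have h3 := sum_facet_apply_ia (m := m) (c := st fun _ => true)
      (φ := fun b => if b then Real.pi / 2 + 0 else 0) s' (fun i => d (i, s' i))
    exact (h2.symm.trans h1).trans h3
  have hib : c (Fin.last m, s (Fin.last m)) *
        Real.sin (if s (Fin.last m) then Real.pi / 2 + 0 else 0) =
      d (Fin.last m, s' (Fin.last m)) *
        Real.sin (if s' (Fin.last m) then Real.pi / 2 + 0 else 0) := by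
    have h1 := congrFun h (ib m)
    have h2 := sum_facet_apply_ib (m := m) (c := st fun _ => true)
      (φ := fun b => if b then Real.pi / 2 + 0 else 0) s (fun i => c (i, s i))
    have h3 := sum_facet_apply_ib (m := m) (c := st fun _ => true)
      (φ := fun b => if b then Real.pi / 2 + 0 else 0) s' (fun i => d (i, s' i))
    exact (h2.symm.trans h1).trans h3
  have key : ∀ i, (fun a => c (i, a)) = fun a => d (i, a) := by
    intro i
    refine pair_eq (b := s i) (b' := s' i) (hcs i) (hds i) ?_ ?_
    · refine Fin.lastCases ?_ (fun k => ?_) i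
      · intro hb
        rw [← hb] at hia hib
        show c (Fin.last m, s (Fin.last m)) = d (Fin.last m, s (Fin.last m))
        revert hia hib
        cases s (Fin.last m)
        · simp
        · simp
      · intro hb
        have h1 := hcast k
        rw [← hb] at h1
        have h2 := rs_sq (s k.castSucc)
        show c (k.castSucc, s k.castSucc) = d (k.castSucc, s k.castSucc)
        linear_combination (rs (s k.castSucc)) * h1 -
          (c (k.castSucc, s k.castSucc) - d (k.castSucc, s k.castSucc)) * h2
    · refine Fin.lastCases ?_ (fun k => ?_) i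
      · show s (Fin.last m) ≠ s' (Fin.last m) → c (Fin.last m, s (Fin.last m)) = 0 ∧
          d (Fin.last m, s' (Fin.last m)) = 0
        revert hia hib
        cases s (Fin.last m) <;> cases s' (Fin.last m) <;> simp
        · intro h1 h2
          exact ⟨h1, h2.symm⟩
        · intro h1 h2
          exact ⟨h2, h1.symm⟩
      · show s k.castSucc ≠ s' k.castSucc → c (k.castSucc, s k.castSucc) = 0 ∧
          d (k.castSucc, s' k.castSucc) = 0
        have h1 := hcast k
        have h2 := hc (k.castSucc, s k.castSucc)
        have h3 := hd (k.castSucc, s' k.castSucc)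
        revert h1 h2 h3
        cases s k.castSucc <;> cases s' k.castSucc <;> simp [rs]
        · intro h1 h2 h3
          constructor <;> linarith
        · intro h1 h2 h3
          constructor <;> linarith
  funext ⟨i, a⟩
  exact congrFun (key i) a

lemma unitIncrement_of (m : ℕ) {γ : Path (base m 0) (base m 0)} (hγ : ∀ t, Ortho (γ t))
    {A : Set (Fin (m + 1) × Bool)} {k : ℤ} (hk : k = 1 ∨ k = -1)
    (h : Inc (crossPolytope (m + 1)) (γ.map (continuous_antipodes A))
      (k * sphereVol (m + 1))) :
    UnitIncrement (crossPolytope (m + 1)) (antipodes A (base m 0))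
      (fun t => antipodes A (γ t)) := by
  refine ⟨(continuous_antipodes A).comp γ.continuous, ?_, ?_, ?_, k, hk, ?_⟩
  · simp only [γ.source]
  · simp only [γ.target]
  · intro t
    exact ((hγ t).antipodes A).mem_Conf ((ortho_base _).antipodes A)
  · exact h.incrementAlong

lemma UnitIncrement.not_branch {V : Type} {n : ℕ} {K : OrientedPseudomanifold V n}
    {P₀ : V → Fin (n + 1) → ℝ} {γ : unitInterval → V → Fin (n + 1) → ℝ}
    (h : UnitIncrement K P₀ γ) : ¬ HasRealBranch K P₀ := by
  obtain ⟨h1, h2, h3, h4, k, hk, h5⟩ := h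
  refine not_hasRealBranch K P₀ h1 (h2.trans h3.symm) h4 (k := k) ?_ h5
  rcases hk with rfl | rfl <;> norm_num

lemma antipodes_empty {V : Type} {n : ℕ} (P : V → Fin (n + 1) → ℝ) : antipodes ∅ P = P := by
  funext v
  simp [antipodes]

/-- For every `n ≥ 3` there are an embedded flexible polyhedron `P₀` in `S^n` and a closed curve in
its configuration space along which the increment of the oriented volume is `± vol(S^n)`; so the
oriented volume has no single-valued real-valued branch. The same holds, with the same curve, after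
the vertices of an arbitrary set `A` are replaced by their antipodes. -/
theorem result : ∀ n : ℕ, 3 ≤ n → ∃ (V : Type) (K : OrientedPseudomanifold V n)
    (P₀ : V → Fin (n + 1) → ℝ) (γ : unitInterval → V → Fin (n + 1) → ℝ),
    IsPolyhedron K P₀ ∧ Embedded K P₀ ∧ Flexible K P₀ ∧ UnitIncrement K P₀ γ ∧
    ¬ HasRealBranch K P₀ ∧
    ∀ A : Set V, Flexible K (antipodes A P₀) ∧
      UnitIncrement K (antipodes A P₀) (fun t => antipodes A (γ t)) ∧
      ¬ HasRealBranch K (antipodes A P₀) := by
  intro n hn
  obtain ⟨m, rfl⟩ : ∃ m, n = m + 1 := ⟨n - 1, by omega⟩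
  obtain ⟨γ, hγ, h⟩ := exists_loop m
  have key : ∀ A : Set (Fin (m + 1) × Bool),
      Flexible (crossPolytope (m + 1)) (antipodes A (base m 0)) ∧
      UnitIncrement (crossPolytope (m + 1)) (antipodes A (base m 0))
        (fun t => antipodes A (γ t)) ∧
      ¬ HasRealBranch (crossPolytope (m + 1)) (antipodes A (base m 0)) := by
    intro A
    obtain ⟨k, hk, hinc⟩ := h A
    have hu := unitIncrement_of m hγ hk hinc
    exact ⟨flexible_base A, hu, hu.not_branch⟩
  have h0 := key ∅
  simp only [antipodes_empty] at h0
  exact ⟨Fin (m + 1) × Bool, crossPolytope (m + 1), base m 0, γ, (ortho_base 0).isPolyhedron,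
    embedded_base m, h0.1, h0.2.1, h0.2.2, key⟩

end Pool.Agent.Results.MP_cf0a62_gt.RobustNonzeroIncrement
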