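import Pool.Agent.helper69.FlexPoly.Nondeg

set_option autoImplicit false

open MeasureTheory Filter Topology

namespace Pool.Agent.Results.MP_cf0a62_gt.SimplestTypeIncrement

open Pool.Agent.helper69.FlexPoly

lemma antipodes_empty {V : Type} {n : ℕ} (P : V → Fin (n + 1) → ℝ) : antipodes ∅ P = P := by
  funext v
  simp [antipodes]

/-- The motion of the flexible cross-polytope of the simplest type with the base simplex with the
inner normals `N i` and the factors `lam i`: the base simplex lies in the hyperplane where the last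
coordinate is zero, and the facet that has its `i`-th ridge in common with the base simplex lies in
the hyperplane orthogonal to `(- sin φ_i N_i, cos φ_i)`, where `tan (φ_i / 2) = lam i * tan θ`. -/
def SimplestMotion {n : ℕ} (N : Matrix (Fin n) (Fin n) ℝ) (lam : Fin n → ℝ)
    (γ : ℝ → Fin n × Bool → Fin (n + 1) → ℝ) : Prop :=
  ∀ θ i, (γ θ (i, false) (Fin.last n) = 0 ∧ 0 < ∑ l, N i l * γ θ (i, false) l.castSucc ∧
    ∀ j, j ≠ i → ∑ l, N i l * γ θ (j, false) l.castSucc = 0) ∧
    2 * lam i * Real.sin θ * Real.cos θ * ∑ l, N i l * γ θ (i, true) l.castSucc =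
      (Real.cos θ ^ 2 - lam i ^ 2 * Real.sin θ ^ 2) * γ θ (i, true) (Fin.last n)

lemma dot_ext {n : ℕ} (x : Fin n → ℝ) (y : Fin (n + 1) → ℝ) :
    y ⬝ᵥ ext x 0 = ∑ l, x l * y l.castSucc := by
  rw [dotProduct, Fin.sum_univ_castSucc]
  simp only [ext, Fin.snoc_castSucc, Fin.snoc_last, mul_zero, add_zero]
  exact Finset.sum_congr rfl fun l _ => mul_comm _ _

lemma simplestMotion {n : ℕ} {N : Matrix (Fin n) (Fin n) ℝ} {lam : Fin n → ℝ} (h : Adm N lam) :
    SimplestMotion N lam (curve N lam) := by
  intro θ i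
  have hf : ∀ j, curve N lam θ (j, false) = (√(vA N j ⬝ᵥ vA N j))⁻¹ • vA N j := fun _ => rfl
  have ht : curve N lam θ (i, true) = (√(vB N (xx N lam) (cc lam θ) (ss lam θ) i ⬝ᵥ
      vB N (xx N lam) (cc lam θ) (ss lam θ) i))⁻¹ •
        vB N (xx N lam) (cc lam θ) (ss lam θ) i := rfl
  refine ⟨⟨?_, ?_, ?_⟩, ?_⟩
  · rw [hf, Pi.smul_apply, vA_last, smul_zero]
  · rw [← dot_ext, hf, smul_dotProduct, vA_dot h.det_ne, if_pos rfl, smul_eq_mul, mul_one]
    exact nz_pos (vA_ne h.det_ne i)
  · intro j hj
    rw [← dot_ext, hf, smul_dotProduct, vA_dot h.det_ne, if_neg hj, smul_zero]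
  · have hx : xx N lam i i = 0 := by
      have := xx_anti (N := N) (lam := lam) i i
      linarith
    have hD := (h.D_pos θ i).ne'
    have h1 : 2 * lam i * Real.sin θ * Real.cos θ =
        ss lam θ i * (Real.cos θ ^ 2 + lam i ^ 2 * Real.sin θ ^ 2) := by
      unfold ss; field_simp
    have h2 : Real.cos θ ^ 2 - lam i ^ 2 * Real.sin θ ^ 2 =
        cc lam θ i * (Real.cos θ ^ 2 + lam i ^ 2 * Real.sin θ ^ 2) := by
      unfold cc; field_simp
    rw [← dot_ext, ht, smul_dotProduct, Pi.smul_apply, vB_dot h.det_ne, h.gr_self, hx, h1, h2]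
    simp only [vB, ext_last, smul_eq_mul]
    ring

lemma curve_add_pi {n : ℕ} {N : Matrix (Fin n) (Fin n) ℝ} {lam : Fin n → ℝ} (θ : ℝ) :
    curve N lam (θ + Real.pi) = curve N lam θ := by
  have h1 : cc lam (θ + Real.pi) = cc lam θ := by
    funext i
    simp [cc, Real.cos_add_pi, Real.sin_add_pi]
  have h2 : ss lam (θ + Real.pi) = ss lam θ := by
    funext i
    simp [ss, Real.cos_add_pi, Real.sin_add_pi]
  unfold curve
  rw [h1, h2]

open Classical in
/-- All flexible cross-polytopes of the simplest type (for arbitrary base simplex, given by its unit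
normals `N i`, and arbitrary factors `0 < lam 0 < lam 1 < ...`) and all their antipodal versions:
the exact increment of the oriented volume along the closed curve of the flexion. -/
theorem result : ∀ n : ℕ, 3 ≤ n → ∀ (N : Matrix (Fin n) (Fin n) ℝ) (lam : Fin n → ℝ),
    N.det ≠ 0 → (∀ i, ∑ l, N i l ^ 2 = 1) → (∀ i, 0 < lam i) → StrictMono lam →
    ∃ γ : ℝ → Fin n × Bool → Fin (n + 1) → ℝ, Continuous γ ∧
      (∀ θ, γ (θ + Real.pi) = γ θ) ∧ SimplestMotion N lam γ ∧
      (∀ θ θ', γ θ ∈ Conf (crossPolytope n) (γ θ')) ∧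
      (∀ᶠ θ in 𝓝 (Real.pi / 2), Embedded (crossPolytope n) (γ θ)) ∧
      ((∀ i k, i ≠ k → (∑ l, N i l * N k l) * lam i ≠ lam k) →
        ∀ θ v w, v ≠ w → γ θ v ≠ γ θ w ∧ γ θ v ≠ - γ θ w) ∧
      ∀ A : Set (Fin n × Bool), (∀ θ, Flexible (crossPolytope n) (antipodes A (γ θ))) ∧
        ∃ k s : ℤ, (k = s ∨ k = -s) ∧
          s = (∑ i, if ∀ j, (j < i → ((j, true) ∈ A ↔ (j, false) ∉ A)) ∧
            (i < j → ((j, true) ∈ A ↔ (j, false) ∈ A))
            then (if (i, false) ∈ A then -1 else 1) else 0) ∧
          IncrementAlong (crossPolytope n) (fun t => antipodes A (γ (Real.pi * t))) k ∧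
          (k ≠ 0 → ∀ θ, ¬ HasRealBranch (crossPolytope n) (antipodes A (γ θ))) ∧
          ((∀ i, (i, true) ∈ A ↔ (i, false) ∈ A) → k = 1 ∨ k = -1) := by
  intro n hn N lam hdet hunit hpos hmono
  have h : Adm N lam := ⟨hdet, hunit, hpos, hmono.injective⟩
  refine ⟨curve N lam, h.continuous_curve, curve_add_pi, simplestMotion h, ?_, h.embedded, ?_, ?_⟩
  · intro θ θ'
    have := h.mem_Conf θ θ' ∅
    rwa [antipodes_empty, antipodes_empty] at this
  · intro hg θ v w hvw
    have h1 := h.not_parallel (by omega) hg θ hvw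
    constructor
    · intro h2
      have := (h1 1 1 (by rw [h2])).1
      norm_num at this
    · intro h2
      have := (h1 1 (-1) (by rw [h2]; simp)).1
      norm_num at this
  · intro A
    refine ⟨h.flexible (by omega) A, ?_⟩
    have hcnt : cnt lam A = ∑ i, if ∀ j, (j < i → ((j, true) ∈ A ↔ (j, false) ∉ A)) ∧
            (i < j → ((j, true) ∈ A ↔ (j, false) ∈ A))
            then (if (i, false) ∈ A then -1 else 1) else 0 := by
      unfold cnt
      simp only [hmono.lt_iff_lt]
    refine ⟨tau N A * cnt lam A, cnt lam A, ?_, hcnt, ?_, ?_, ?_⟩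
    · rcases tau_cases h.det_ne A with h1 | h1 <;> rw [h1]
      · left; ring
      · right; ring
    · exact h.increment_exact A
    · intro hk θ
      refine not_hasRealBranch (crossPolytope n) _
        (γ := fun t => antipodes A (loop N lam t)) ?_ ?_ ?_ hk (h.increment_exact A)
      · exact (continuous_antipodes A).comp h.continuous_loop
      · simp only [loop_zero, loop_one]
      · intro t
        exact h.mem_Conf _ _ A
    · intro hA
      set i₀ : Fin n := ⟨0, by omega⟩ with hi₀
      have h1 : cnt lam A = if (i₀, false) ∈ A then -1 else 1 := by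
        rw [hcnt, Finset.sum_eq_single i₀]
        · rw [if_pos]
          intro j
          refine ⟨fun hj => ?_, fun _ => hA j⟩
          exact absurd hj (by simp [hi₀, Fin.lt_def])
        · intro i _ hi
          rw [if_neg]
          intro h2
          have h3 : i₀ < i := by
            rw [Fin.lt_def, hi₀]
            have : i.val ≠ 0 := fun h4 => hi (Fin.ext h4)
            show 0 < i.val
            omega
          have h4 := (h2 i₀).1 h3
          have h5 := hA i₀
          tauto
        · intro h2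
          exact absurd (Finset.mem_univ _) h2
      rw [h1]
      rcases tau_cases h.det_ne A with h2 | h2 <;> rw [h2] <;> split_ifs <;> simp

end Pool.Agent.Results.MP_cf0a62_gt.SimplestTypeIncrement
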